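import Pool.Agent.H753R3.SC.Stmts
import Pool.Agent.H753R3.SC.Stmts4

/-! Task B3 of project H753-SC. -/

set_option autoImplicit false

namespace Pool.Agent.H493R3.SC

open Set Cardinal

/-- core of B3 -/
theorem core {P : Type} [PartialOrder P] [TopologicalSpace P] [Topology.IsScott P Set.univ]
    (hA : ∀ (K V : Set P), IsCompact K → IsOpen V → K ⊆ V →
      ∀ z : ℕ → P, (∀ n, z n ∈ K) → ∃ c ∈ V, ∀ N, ∃ n, N ≤ n ∧ c ≤ z n)
    (B : Set P) (hB : ∀ V : Set P, IsOpen V → ∀ x ∈ V, ∃ b ∈ B ∩ V, b ≤ x)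
    (K L : Set P) (hK : IsCompact K) (hKL : K ⊆ interior L) (y : ℕ → P) (hy : ∀ n, y n ∈ K)
    (hcov : ∀ H : Finset P, (∀ h ∈ H, h ∈ L) → ∃ n, ∀ h ∈ H, ¬ h ≤ y n)
    (FF : Set (Set ℕ)) (hFF : FF = {s | ∃ b ∈ B ∩ interior L, (∃ k, b ≤ y k) ∧
      s = {k | b ≤ y k}ᶜ}) :
    (∀ G : Finset (Set ℕ), (∀ s ∈ G, s ∈ FF) → {k | ∀ s ∈ G, k ∈ s}.Infinite) ∧
    ¬ ∃ Z : Set ℕ, Z.Infinite ∧ ∀ s ∈ FF, (Z \ s).Finite := by
  classical
  constructor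
  · intro G hG hfin
    have hb : ∀ s ∈ G, ∃ b ∈ B ∩ interior L, s = {k | b ≤ y k}ᶜ := by
      intro s hs
      have := hG s hs
      rw [hFF] at this
      obtain ⟨b, hb, -, h⟩ := this
      exact ⟨b, hb, h⟩
    have hne : Nonempty P := ⟨y 0⟩
    choose! β hβ1 hβ2 using hb
    obtain ⟨n, hn⟩ := hcov (G.image β ∪ hfin.toFinset.image y) (by
      intro h hh
      rw [Finset.mem_union, Finset.mem_image, Finset.mem_image] at hh
      rcases hh with ⟨s, hs, rfl⟩ | ⟨k, -, rfl⟩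
      · exact interior_subset (hβ1 s hs).2
      · exact interior_subset (hKL (hy k)))
    have h1 : n ∉ {k | ∀ s ∈ G, k ∈ s} := by
      intro h2
      refine hn (y n) ?_ (le_refl _)
      rw [Finset.mem_union]
      right
      exact Finset.mem_image_of_mem y (hfin.mem_toFinset.2 h2)
    apply h1
    intro s hs
    rw [hβ2 s hs]
    intro h3
    exact hn (β s) (Finset.mem_union_left _ (Finset.mem_image_of_mem β hs)) h3
  · rintro ⟨Z, hZ, hZs⟩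
    have he : StrictMono (Nat.nth (· ∈ Z)) := Nat.nth_strictMono hZ
    obtain ⟨c, hc, hcn⟩ := hA K (interior L) hK isOpen_interior hKL
      (fun n => y (Nat.nth (· ∈ Z) n)) (fun n => hy _)
    obtain ⟨b, hb, hbc⟩ := hB (interior L) isOpen_interior c hc
    obtain ⟨n0, -, hn0⟩ := hcn 0
    have h1 : {k | b ≤ y k}ᶜ ∈ FF := by
      rw [hFF]
      exact ⟨b, hb, ⟨_, hbc.trans hn0⟩, rfl⟩
    have h2 := hZs _ h1
    have h3 : {n | c ≤ y (Nat.nth (· ∈ Z) n)}.Infinite := by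
      rw [Set.infinite_iff_exists_gt]
      intro a
      obtain ⟨n, hn1, hn2⟩ := hcn (a + 1)
      exact ⟨n, hn2, by omega⟩
    have h4 := h3.image he.injective.injOn
    refine h4 (h2.subset ?_)
    rintro _ ⟨n, hn, rfl⟩
    refine ⟨Nat.nth_mem_of_infinite hZ n, ?_⟩
    intro h5
    exact h5 (hbc.trans hn)


theorem cardFF {P : Type} [PartialOrder P] (B : Set P) (I : Set P) (y : ℕ → P) (μ : Cardinal.{0})
    (hμ : ∀ x, #(B ∩ Iic x : Set P) ≤ μ) :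
    #({s | ∃ b ∈ B ∩ I, (∃ k, b ≤ y k) ∧ s = {k | b ≤ y k}ᶜ} : Set (Set ℕ)) ≤ ℵ₀ * μ := by
  have h1 : {s | ∃ b ∈ B ∩ I, (∃ k, b ≤ y k) ∧ s = {k | b ≤ y k}ᶜ} ⊆
      (fun b : P => {k | b ≤ y k}ᶜ) '' (⋃ k, B ∩ Iic (y k)) := by
    rintro _ ⟨b, hb, ⟨k, hk⟩, rfl⟩
    exact ⟨b, mem_iUnion.2 ⟨k, hb.1, hk⟩, rfl⟩
  calc _ ≤ #((fun b : P => {k | b ≤ y k}ᶜ) '' (⋃ k, B ∩ Iic (y k)) : Set (Set ℕ)) :=
        mk_le_mk_of_subset h1
    _ ≤ #(⋃ k, B ∩ Iic (y k) : Set P) := mk_image_le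
    _ ≤ Cardinal.sum fun k : ℕ => #(B ∩ Iic (y k) : Set P) := mk_iUnion_le_sum_mk
    _ ≤ Cardinal.sum fun _ : ℕ => μ := Cardinal.sum_le_sum _ _ fun k => hμ _
    _ = ℵ₀ * μ := by simp

open Pool.Agent.H753R3.SC in
theorem taskB3 : TaskA → TaskN → TaskQ → TaskB3 := by
  intro hA hN hQ P _ _ _ hdc _ B μ hμ hBμ hB K V hK hV hKV
  obtain ⟨L, hL, hKL, hLV⟩ := exists_compact_between hK hV hKV
  by_contra hcon
  obtain ⟨y, hy, hcov⟩ := hN P K L hL (by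
    intro H hH
    by_contra h1
    apply hcon
    refine ⟨H, fun h hh => hLV (hH h hh), ?_⟩
    intro x hx
    by_contra h2
    apply h1
    exact ⟨x, hx, fun h hh hle => h2 ⟨h, hh, hle⟩⟩)
  obtain ⟨c1, c2⟩ := core (hA P hdc) B hB K L hK hKL y hy hcov _ rfl
  have h3 : pnum ≤ #({s | ∃ b ∈ B ∩ interior L, (∃ k, b ≤ y k) ∧ s = {k | b ≤ y k}ᶜ} :
      Set (Set ℕ)) := by
    apply csInf_le'
    refine ⟨_, rfl, ?_, ?_⟩
    · intro S hS
      have h4 : (⋂ s ∈ S, s) = {k | ∀ s ∈ S, k ∈ s} := by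
        ext k
        simp
      rw [h4]
      exact c1 S hS
    · intro Z hZ
      by_contra h5
      apply c2
      refine ⟨Z, hZ, fun s hs => ?_⟩
      by_contra h6
      exact h5 ⟨s, hs, h6⟩
  have h7 := cardFF B (interior L) y μ hBμ
  have h8 : ℵ₀ * μ < pnum := mul_lt_of_lt (le_of_lt hQ) hQ hμ
  exact absurd (h3.trans h7) (not_le.2 h8)

end Pool.Agent.H493R3.SC
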